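import Pool.Agent.Lib_MP_8c8a5b_lc.Final

set_option autoImplicit false

/-!
# MP_8c8a5b_lc: Borwein's lower bound for arithmetic algorithms

If `n!` can be computed at the charge `c` from integers of at most `δ n log₂ n` digits by
multiplications of an available integer by an arbitrary integer which is not longer (charged the
time of a given multiplication machine for the two lengths), by steps which lengthen by one digit
(charged the length) and by free steps which lengthen by at most `ρ n log₂ n` digits in total,
`δ + ρ < 1`, then a fixed other multiplication machine multiplies integers of at most `n log₂ n`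
digits in time `O(c + n log₂ n)`.

Proof. Let `l` be a power of two, `l` about `ε n log₂ n`. If all products of integers of `l` and
`s ≤ l` digits were more expensive than `c s / l`, then long integers would be expensive and `n!`
could not be computed at the charge `c`; so there is an `s` with `t (l, s) ≤ c s / l`. A machine
which finds a good `s` by doubling the budget (and falls back to the school method) multiplies
integers of `O(l)` digits in blocks of `l` and `s` digits.
-/

namespace Pool.Agent.Results.MP_8c8a5b_lc.ArithmeticAlgorithms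

open Pool.Agent.Borwein

theorem result (tm : Turing.FinTM2) (ein : tm.Γ tm.k₀ ≃ Option Bool) (eout : tm.Γ tm.k₁ ≃ Bool)
    (hfin : ∀ k, Finite (tm.Γ k)) (t : ℕ → ℕ → ℕ)
    (hmono : ∀ p p' q q', p ≤ p' → q ≤ q' → t p q ≤ t p' q')
    (hM : ∀ x y : ℤ, MulWithin tm ein eout x y (t (max (len x) (len y)) (min (len x) (len y))))
    (δ ρ : ℝ) (hδ : 0 ≤ δ) (hδρ : δ + ρ < 1) :
    ∃ (tm' : Turing.FinTM2) (ein' : tm'.Γ tm'.k₀ ≃ Option Bool) (eout' : tm'.Γ tm'.k₁ ≃ Bool)
      (C : ℕ), (∀ k, Finite (tm'.Γ k)) ∧
      ∀ (a n : ℕ) (B : ℕ) (S : List ℤ) (A c : ℕ), 1 ≤ a → (a : ℝ) ≤ n * Real.logb 2 n →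
        Comp t B S A c → (n.factorial : ℤ) ∈ S → (B : ℝ) ≤ δ * (n * Real.logb 2 n) →
        (A : ℝ) ≤ ρ * (n * Real.logb 2 n) →
        ∀ x y : ℤ, x.natAbs < 2 ^ a → y.natAbs < 2 ^ a →
          MulWithin tm' ein' eout' x y (C * (c + a)) :=
  main tm ein eout hfin t hmono hM δ ρ hδ hδρ

end Pool.Agent.Results.MP_8c8a5b_lc.ArithmeticAlgorithms
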